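import Mathlib

/-!
# Close pairs of degrees: definitions and the two counting lemmas
-/

namespace Q248.DC

open Finset

/-- Two vertices are joined in `closeGraph G k` when they are distinct and their degrees in `G`
differ by less than `k`. -/
def closeGraph {V : Type*} [Fintype V] [DecidableEq V] (G : SimpleGraph V) [DecidableRel G.Adj]
    (k : ℕ) : SimpleGraph V where
  Adj x y := x ≠ y ∧ |(G.degree x : ℤ) - (G.degree y : ℤ)| < (k : ℤ)
  symm := ⟨by
    intro x y h
    refine ⟨h.1.symm, ?_⟩
    rw [abs_sub_comm]
    exact h.2⟩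
  loopless := ⟨fun x h => h.1 rfl⟩

instance {V : Type*} [Fintype V] [DecidableEq V] (G : SimpleGraph V) [DecidableRel G.Adj]
    (k : ℕ) : DecidableRel (closeGraph G k).Adj := fun x y => by
  unfold closeGraph
  infer_instance

/-- `h_k(G)`: the number of unordered pairs of distinct vertices of `G` whose degrees differ by
less than `k`. -/
def closePairs {V : Type*} [Fintype V] [DecidableEq V] (G : SimpleGraph V) [DecidableRel G.Adj]
    (k : ℕ) : ℕ :=
  #(closeGraph G k).edgeFinset

/-- `t = n - k (⌈n/k⌉ - 1)`. -/
def tt (n k : ℕ) : ℕ := n - k * (⌈(n : ℚ) / k⌉₊ - 1)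

/-- `f_0(n,k) = (⌈n/k⌉ - 2) C(k,2) + C(k+1,2) + C(t-1,2)`. -/
def f0 (n k : ℕ) : ℕ :=
  (⌈(n : ℚ) / k⌉₊ - 2) * k.choose 2 + (k + 1).choose 2 + (tt n k - 1).choose 2

/-- Double counting between high-degree and low-degree vertices. -/
theorem high_low {V : Type*} [Fintype V] [DecidableEq V] (G : SimpleGraph V) [DecidableRel G.Adj]
    (T B : Finset V) (hd : Disjoint T B) (p q : ℕ)
    (hB : ∀ v ∈ B, G.degree v ≤ p) (hT : ∀ u ∈ T, Fintype.card V ≤ G.degree u + 1 + q) :
    #T * #B ≤ #B * p + #T * q := by
  have h1 : ∀ u ∈ T, #(B.filter fun v => ¬ G.Adj u v) ≤ q := by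
    intro u hu
    have huB : u ∉ B := Finset.disjoint_left.mp hd hu
    have hsub : insert u (B.filter fun v => ¬ G.Adj u v) ⊆ univ \ G.neighborFinset u := by
      intro x hx
      rw [Finset.mem_insert] at hx
      rw [Finset.mem_sdiff, SimpleGraph.mem_neighborFinset]
      refine ⟨Finset.mem_univ _, ?_⟩
      rcases hx with rfl | hx
      · exact G.irrefl
      · exact (Finset.mem_filter.mp hx).2
    have hc := Finset.card_le_card hsub
    have hnot : u ∉ B.filter fun v => ¬ G.Adj u v := fun h => huB (Finset.mem_filter.mp h).1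
    rw [Finset.card_insert_of_notMem hnot, Finset.card_sdiff_of_subset (Finset.subset_univ _),
      SimpleGraph.card_neighborFinset_eq_degree, Finset.card_univ] at hc
    have := hT u hu
    omega
  have h2 : ∀ v ∈ B, #(T.filter fun u => G.Adj u v) ≤ p := by
    intro v hv
    refine le_trans ?_ (hB v hv)
    rw [← SimpleGraph.card_neighborFinset_eq_degree]
    apply Finset.card_le_card
    intro x hx
    rw [SimpleGraph.mem_neighborFinset]
    exact (Finset.mem_filter.mp hx).2.symm
  have h3 : ∑ u ∈ T, #(B.filter fun v => G.Adj u v) = ∑ v ∈ B, #(T.filter fun u => G.Adj u v) :=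
    Finset.sum_card_bipartiteAbove_eq_sum_card_bipartiteBelow G.Adj
  have h4 : #T * #B = ∑ u ∈ T, (#(B.filter fun v => G.Adj u v) +
      #(B.filter fun v => ¬ G.Adj u v)) := by
    rw [Finset.sum_congr rfl (fun u _ => Finset.card_filter_add_card_filter_not _),
      Finset.sum_const, smul_eq_mul]
  rw [h4, Finset.sum_add_distrib, h3]
  have h5 : ∑ v ∈ B, #(T.filter fun u => G.Adj u v) ≤ #B * p := by
    have := Finset.sum_le_card_nsmul B _ p h2
    simpa [smul_eq_mul] using this
  have h6 : ∑ u ∈ T, #(B.filter fun v => ¬ G.Adj u v) ≤ #T * q := by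
    have := Finset.sum_le_card_nsmul T _ q h1
    simpa [smul_eq_mul] using this
  exact Nat.add_le_add h5 h6

/-- There is a threshold `φ ≤ t` such that less than `t` vertices have degree below `φ` and less
than `t` vertices have degree at least `M + φ`. -/
theorem exists_threshold {V : Type*} [Fintype V] [DecidableEq V] (G : SimpleGraph V)
    [DecidableRel G.Adj] (M t : ℕ) (hM : 1 ≤ M) (ht : 1 ≤ t) (hn : Fintype.card V = M + t) :
    ∃ φ ≤ t, #(univ.filter fun v => G.degree v < φ) < t ∧
      #(univ.filter fun v => M + φ ≤ G.degree v) < t := by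
  by_cases h : ∃ φ, φ < t ∧ t ≤ #(univ.filter fun v => G.degree v ≤ φ)
  · classical
    obtain ⟨hlt, hge⟩ := Nat.find_spec h
    set φ := Nat.find h with hφ
    refine ⟨φ, hlt.le, ?_, ?_⟩
    · rcases Nat.eq_zero_or_pos φ with h0 | h0
      · rw [h0]; simp; omega
      · have hmin := Nat.find_min h (m := φ - 1) (by omega)
        rw [not_and] at hmin
        have h1 := hmin (by omega)
        rw [not_le] at h1
        refine lt_of_le_of_lt (Finset.card_le_card ?_) h1
        intro x hx
        rw [Finset.mem_filter] at hx ⊢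
        exact ⟨hx.1, by omega⟩
    · by_contra hcon
      rw [not_lt] at hcon
      have key := high_low G (univ.filter fun v => M + φ ≤ G.degree v)
        (univ.filter fun v => G.degree v ≤ φ) (by
          rw [Finset.disjoint_left]
          intro x hx hx'
          rw [Finset.mem_filter] at hx hx'
          omega) φ (t - 1 - φ) (by
          intro v hv
          exact (Finset.mem_filter.mp hv).2) (by
          intro u hu
          have := (Finset.mem_filter.mp hu).2
          omega)
      set a := #(univ.filter fun v => M + φ ≤ G.degree v)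
      set b := #(univ.filter fun v => G.degree v ≤ φ)
      obtain ⟨r, hr⟩ : ∃ r, t = φ + 1 + r := ⟨t - 1 - φ, by omega⟩
      have hr' : t - 1 - φ = r := by omega
      rw [hr'] at key
      rcases le_total a b with hab | hab
      · have h1 : a * r ≤ b * r := Nat.mul_le_mul_right _ hab
        have h2 : a * b ≤ b * (φ + r) := by nlinarith
        have h3 : b * a ≤ b * (φ + r) := by linarith [Nat.mul_comm a b]
        have hb : 0 < b := by omega
        have h4 := Nat.le_of_mul_le_mul_left h3 hb
        omega
      · have h1 : b * φ ≤ a * φ := Nat.mul_le_mul_right _ hab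
        have h2 : a * b ≤ a * (φ + r) := by nlinarith
        have ha : 0 < a := by omega
        have h4 := Nat.le_of_mul_le_mul_left h2 ha
        omega
  · push Not at h
    refine ⟨t, le_rfl, ?_, ?_⟩
    · have h1 := h (t - 1) (by omega)
      refine lt_of_le_of_lt (Finset.card_le_card ?_) h1
      intro x hx
      rw [Finset.mem_filter] at hx ⊢
      exact ⟨hx.1, by omega⟩
    · have h1 : (univ.filter fun v => M + t ≤ G.degree v) = ∅ := by
        rw [Finset.filter_eq_empty_iff]
        intro v _ hv
        have := G.degree_lt_card_verts v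
        omega
      rw [h1]; simp; omega

end Q248.DC
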