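import Mathlib

/-!
# Close pairs of degrees: two numerical lemmas
-/

namespace Q248.DC

open Finset

/-- The chain lemma: if `r` is at most `n`, starts equal to `n` and ends at `0`, then the missing
products sum up to at least the product of two consecutive values of `n`. -/
theorem chain_lemma (n r : ℕ → ℕ) (s : ℕ) (hs : 1 ≤ s) (hrn : ∀ i, r i ≤ n i) (h0 : r 0 = n 0)
    (hend : r s = 0) :
    ∃ j, j < s ∧ n j * n (j + 1) ≤ ∑ i ∈ range s, r i * (n (i + 1) - r (i + 1)) := by
  obtain ⟨j, hj, hmin⟩ := Finset.exists_min_image (range s) (fun i => n i * n (i + 1))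
    ⟨0, Finset.mem_range.mpr (by omega)⟩
  rw [Finset.mem_range] at hj
  refine ⟨j, hj, ?_⟩
  by_cases hz : n j * n (j + 1) = 0
  · rw [hz]; exact Nat.zero_le _
  have hpos : ∀ i, i ≤ s → 0 < n i := by
    intro i hi
    rcases Nat.lt_or_ge i s with h | h
    · have := hmin i (Finset.mem_range.mpr h)
      have h2 : 0 < n i * n (i + 1) := lt_of_lt_of_le (Nat.pos_of_ne_zero hz) this
      exact Nat.pos_of_mul_pos_right h2 |> fun h => h
    · have hi' : i = s := le_antisymm hi h
      have := hmin (s - 1) (Finset.mem_range.mpr (by omega))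
      have h2 : 0 < n (s - 1) * n (s - 1 + 1) := lt_of_lt_of_le (Nat.pos_of_ne_zero hz) this
      rw [Nat.sub_add_cancel hs] at h2
      rw [hi']
      exact Nat.pos_of_mul_pos_left h2
  set μ := n j * n (j + 1) with hμ
  have key : ∀ m, m ≤ s → (μ : ℚ) * (1 - (r m : ℚ) / n m) ≤
      ∑ i ∈ range m, (r i : ℚ) * ((n (i + 1) : ℚ) - r (i + 1)) := by
    intro m
    induction m with
    | zero =>
      intro _
      have h1 : ((n 0 : ℕ) : ℚ) ≠ 0 := by
        have := hpos 0 (by omega)
        positivity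
      rw [h0, div_self h1]
      simp
    | succ m ih =>
      intro hm
      have ih' := ih (by omega)
      rw [Finset.sum_range_succ]
      have hn1 : (0 : ℚ) < n m := by exact_mod_cast hpos m (by omega)
      have hn2 : (0 : ℚ) < n (m + 1) := by exact_mod_cast hpos (m + 1) hm
      have hmu : (μ : ℚ) ≤ n m * n (m + 1) := by
        have := hmin m (Finset.mem_range.mpr (by omega))
        exact_mod_cast this
      set x : ℚ := (r m : ℚ) / n m with hx
      set y : ℚ := (r (m + 1) : ℚ) / n (m + 1) with hy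
      have hx0 : 0 ≤ x := by positivity
      have hy0 : 0 ≤ y := by positivity
      have hx1 : x ≤ 1 := by
        rw [hx, div_le_one hn1]; exact_mod_cast hrn m
      have hy1 : y ≤ 1 := by
        rw [hy, div_le_one hn2]; exact_mod_cast hrn (m + 1)
      have hrm : (r m : ℚ) = x * n m := by rw [hx]; field_simp
      have hrm1 : (r (m + 1) : ℚ) = y * n (m + 1) := by rw [hy]; field_simp
      rw [hrm1, hrm]
      have hmu0 : (0 : ℚ) ≤ μ := by positivity
      have e1 : x * (n m : ℚ) * ((n (m + 1) : ℚ) - y * n (m + 1)) =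
          (n m * n (m + 1) : ℚ) * (x * (1 - y)) := by ring
      rw [e1]
      have hxy : 0 ≤ x * (1 - y) := mul_nonneg hx0 (by linarith)
      have h2 : (μ : ℚ) * (x * (1 - y)) ≤ (n m * n (m + 1) : ℚ) * (x * (1 - y)) :=
        mul_le_mul_of_nonneg_right hmu hxy
      have h3 : (μ : ℚ) * (1 - y) ≤ μ * (1 - x) + μ * (x * (1 - y)) := by
        have : 0 ≤ (μ : ℚ) * (y * (1 - x)) :=
          mul_nonneg hmu0 (mul_nonneg hy0 (by linarith))
        nlinarith
      linarith
  have hfin := key s le_rfl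
  rw [hend] at hfin
  simp only [Nat.cast_zero, zero_div, sub_zero, mul_one] at hfin
  have : ((∑ i ∈ range s, r i * (n (i + 1) - r (i + 1)) : ℕ) : ℚ) =
      ∑ i ∈ range s, (r i : ℚ) * ((n (i + 1) : ℚ) - r (i + 1)) := by
    push_cast
    refine Finset.sum_congr rfl fun i _ => ?_
    rw [Nat.cast_sub (hrn (i + 1))]
  rw [← this] at hfin
  exact_mod_cast hfin

/-- The convexity bound. -/
theorem convex_bound (n : ℕ → ℤ) (q : ℕ) (k t : ℤ) (hn : ∀ i, 0 ≤ n i) (ht : 1 ≤ t) (htk : t ≤ k)
    (hsum : ∑ i ∈ range (q + 3), n i = (q + 1) * k + t) (h0 : n 0 ≤ t - 1)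
    (hs : n (q + 2) ≤ t - 1) (j : ℕ) (hj : j < q + 2) :
    q * (k * (k - 1)) + (k + 1) * k + (t - 1) * (t - 2) ≤
      ∑ i ∈ range (q + 3), n i * (n i - 1) + 2 * (n j * n (j + 1)) := by
  -- the tangent gap
  set g : ℤ → ℤ := fun x => x * (x - 1) - (2 * k * x - k ^ 2 - k) with hg
  have hg0 : ∀ x : ℤ, 0 ≤ g x := by
    intro x
    have e : g x = (x - k) * (x - k - 1) := by simp only [hg]; ring
    rw [e]
    rcases le_or_gt x k with h | h
    · exact mul_nonneg_of_nonpos_of_nonpos (by linarith) (by linarith)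
    · exact mul_nonneg (by linarith) (by linarith)
  have hsumg : ∑ i ∈ range (q + 3), n i * (n i - 1) =
      ∑ i ∈ range (q + 3), g (n i) + (2 * k * ((q + 1) * k + t) - (q + 3) * (k ^ 2 + k)) := by
    rw [← hsum]
    have : ∀ i ∈ range (q + 3), n i * (n i - 1) = g (n i) + (2 * k * n i - (k ^ 2 + k)) := by
      intro i _; simp only [hg]; ring
    have hlin : ∑ i ∈ range (q + 3), (2 * k * n i - (k ^ 2 + k)) =
        2 * k * ∑ i ∈ range (q + 3), n i - (q + 3) * (k ^ 2 + k) := by
      rw [Finset.sum_sub_distrib, ← Finset.mul_sum, Finset.sum_const, Finset.card_range,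
        nsmul_eq_mul]
      push_cast
      ring
    rw [Finset.sum_congr rfl this, Finset.sum_add_distrib, hlin]
  -- the special end
  obtain ⟨e, he, hej, hej', hne⟩ : ∃ e, e < q + 3 ∧ e ≠ j ∧ e ≠ j + 1 ∧ n e ≤ t - 1 := by
    rcases Nat.eq_zero_or_pos j with h | h
    · exact ⟨q + 2, by omega, by omega, by omega, hs⟩
    · exact ⟨0, by omega, by omega, by omega, h0⟩
  have hsub : ({e, j, j + 1} : Finset ℕ) ⊆ range (q + 3) := by
    intro x hx
    simp only [Finset.mem_insert, Finset.mem_singleton] at hx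
    rw [Finset.mem_range]
    omega
  have hge : g (n e) + (g (n j) + g (n (j + 1))) ≤ ∑ i ∈ range (q + 3), g (n i) := by
    have h1 := Finset.sum_le_sum_of_subset_of_nonneg hsub
      (fun i _ _ => hg0 (n i)) (f := fun i => g (n i))
    rw [Finset.sum_insert (by simp; omega), Finset.sum_insert (by simp), Finset.sum_singleton] at h1
    exact h1
  have hm := hg0 (n j + n (j + 1))
  -- bound at the special end
  have hend : (t - 1) * (t - 2) + 2 * k ≤ n e * (n e - 1) + 2 * k * (t - n e) := by
    have h1 : 0 ≤ (t - 1 - n e) * (2 * k + 2 - t - n e) :=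
      mul_nonneg (by linarith) (by have := hn e; nlinarith)
    nlinarith
  rw [hsumg]
  simp only [hg] at hge hm ⊢
  nlinarith

end Q248.DC
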