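import Pool.Agent.Q248.DC.Basic
import Pool.Agent.Q248.DC.Numeric

/-!
# Close pairs of degrees: the lower bound
-/

namespace Q248.DC

open Finset

/-- The vertices of level `i`. -/
def P {V : Type*} [Fintype V] [DecidableEq V] (d : V → ℕ) (k c : ℕ) (i : ℕ) : Finset V :=
  univ.filter fun v => (d v + c) / k = i

/-- The vertices of level `i` that are reached by a chain with steps at least `k`. -/
def R {V : Type*} [Fintype V] [DecidableEq V] (d : V → ℕ) (k c : ℕ) : ℕ → Finset V
  | 0 => P d k c 0
  | i + 1 => (P d k c (i + 1)).filter fun v => ∃ u ∈ R d k c i, d u + k ≤ d v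

theorem R_sub {V : Type*} [Fintype V] [DecidableEq V] (d : V → ℕ) (k c i : ℕ) :
    R d k c i ⊆ P d k c i := by
  cases i with
  | zero => exact Finset.Subset.refl _
  | succ i => exact Finset.filter_subset _ _

theorem R_deg {V : Type*} [Fintype V] [DecidableEq V] (d : V → ℕ) (k c i : ℕ) :
    ∀ v ∈ R d k c i, i * k ≤ d v := by
  induction i with
  | zero => intro v _; simp
  | succ i ih =>
    intro v hv
    rw [R, Finset.mem_filter] at hv
    obtain ⟨_, u, hu, huv⟩ := hv
    have := ih u hu
    calc (i + 1) * k = i * k + k := by ring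
      _ ≤ d u + k := by omega
      _ ≤ d v := huv

/-- The upper close neighbours. -/
def up {V : Type*} [Fintype V] [DecidableEq V] (d : V → ℕ) (k c : ℕ) (v : V) : Finset V :=
  univ.filter fun u => (d u + c) / k = (d v + c) / k + 1 ∧ d u < d v + k

/-- The lower close neighbours. -/
def down {V : Type*} [Fintype V] [DecidableEq V] (d : V → ℕ) (k c : ℕ) (v : V) : Finset V :=
  univ.filter fun u => (d v + c) / k = (d u + c) / k + 1 ∧ d v < d u + k

theorem sum_up_eq_sum_down {V : Type*} [Fintype V] [DecidableEq V] (d : V → ℕ) (k c : ℕ) :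
    ∑ v, #(up d k c v) = ∑ v, #(down d k c v) := by
  have := Finset.sum_card_bipartiteAbove_eq_sum_card_bipartiteBelow
    (s := (univ : Finset V)) (t := (univ : Finset V))
    (fun v u => (d u + c) / k = (d v + c) / k + 1 ∧ d u < d v + k)
  exact this

theorem lt_of_level {a b c k : ℕ} (hk : 1 ≤ k) (h : (a + c) / k = (b + c) / k) : a < b + k := by
  have h1 := Nat.div_add_mod (a + c) k
  have h2 := Nat.div_add_mod (b + c) k
  have h3 := Nat.mod_lt (a + c) hk
  rw [h] at h1
  have h4 := Nat.zero_le ((b + c) % k)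
  omega

theorem lt_of_level_succ {a b c k : ℕ} (hk : 1 ≤ k) (h : (a + c) / k = (b + c) / k + 1) :
    b < a := by
  by_contra hcon
  rw [not_lt] at hcon
  have : (a + c) / k ≤ (b + c) / k := Nat.div_le_div_right (by omega)
  omega

/-- Each vertex is close to its own level and to its upper and lower close neighbours. -/
theorem degree_ge {V : Type*} [Fintype V] [DecidableEq V] (G : SimpleGraph V) [DecidableRel G.Adj]
    (k c : ℕ) (hk : 1 ≤ k) (v : V) :
    (#(P (fun v => G.degree v) k c ((G.degree v + c) / k)) - 1) +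
      #(up (fun v => G.degree v) k c v) + #(down (fun v => G.degree v) k c v) ≤
      (closeGraph G k).degree v := by
  set d : V → ℕ := fun v => G.degree v with hd
  rw [← SimpleGraph.card_neighborFinset_eq_degree]
  have hmem : v ∈ P d k c ((d v + c) / k) := by
    rw [P, Finset.mem_filter]; exact ⟨Finset.mem_univ _, rfl⟩
  have e1 : #(P d k c ((d v + c) / k)) - 1 = #((P d k c ((d v + c) / k)).erase v) := by
    rw [Finset.card_erase_of_mem hmem]
  have hd1 : Disjoint ((P d k c ((d v + c) / k)).erase v) (up d k c v) := by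
    rw [Finset.disjoint_left]
    intro x hx hx'
    rw [Finset.mem_erase, P, Finset.mem_filter] at hx
    rw [up, Finset.mem_filter] at hx'
    omega
  have hd2 : Disjoint ((P d k c ((d v + c) / k)).erase v ∪ up d k c v) (down d k c v) := by
    rw [Finset.disjoint_left]
    intro x hx hx'
    rw [down, Finset.mem_filter] at hx'
    rw [Finset.mem_union, Finset.mem_erase, P, Finset.mem_filter, up, Finset.mem_filter] at hx
    omega
  show #(P d k c ((d v + c) / k)) - 1 + #(up d k c v) + #(down d k c v) ≤ _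
  rw [e1, ← Finset.card_union_of_disjoint hd1, ← Finset.card_union_of_disjoint hd2]
  apply Finset.card_le_card
  intro x hx
  rw [SimpleGraph.mem_neighborFinset]
  show v ≠ x ∧ |(G.degree v : ℤ) - (G.degree x : ℤ)| < (k : ℤ)
  rw [abs_lt]
  rw [Finset.mem_union, Finset.mem_union, Finset.mem_erase, P, Finset.mem_filter, up,
    Finset.mem_filter, down, Finset.mem_filter] at hx
  rcases hx with (⟨hne, _, hx⟩ | ⟨_, hx, hx'⟩) | ⟨_, hx, hx'⟩
  · refine ⟨fun h => hne h.symm, ?_⟩
    have h1 := lt_of_level hk hx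
    have h2 := lt_of_level hk hx.symm
    simp only [hd] at h1 h2
    constructor <;> omega
  · have h1 := lt_of_level_succ hk hx
    simp only [hd] at h1 hx'
    refine ⟨fun h => ?_, by omega, by omega⟩
    rw [h] at h1; omega
  · have h1 := lt_of_level_succ hk hx
    simp only [hd] at h1 hx'
    refine ⟨fun h => ?_, by omega, by omega⟩
    rw [h] at h1; omega

/-- The main inequality. -/
theorem main {V : Type*} [Fintype V] [DecidableEq V] (G : SimpleGraph V) [DecidableRel G.Adj]
    (q k t : ℕ) (hk : 1 ≤ k) (ht : 1 ≤ t) (htk : t ≤ k)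
    (hn : Fintype.card V = (q + 1) * k + t) :
    (q : ℤ) * (k * (k - 1)) + (k + 1) * k + (t - 1) * (t - 2) ≤ 2 * (closePairs G k : ℤ) := by
  obtain ⟨φ, hφ, hlow, hhigh⟩ := exists_threshold G ((q + 1) * k) t (by nlinarith) ht hn
  set d : V → ℕ := fun v => G.degree v with hd
  set c := k - φ with hc
  set n : ℕ → ℕ := fun i => #(P d k c i) with hnn
  have hdlt : ∀ v, d v < (q + 1) * k + t := fun v => by
    rw [← hn]; exact G.degree_lt_card_verts v
  have hlev : ∀ v, (d v + c) / k < q + 3 := by
    intro v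
    rw [Nat.div_lt_iff_lt_mul hk]
    have := hdlt v
    have e : (q + 3) * k = (q + 1) * k + 2 * k := by ring
    omega
  -- the ends
  have hn0 : n 0 < t := by
    refine lt_of_le_of_lt (Finset.card_le_card ?_) hlow
    intro x hx
    rw [P, Finset.mem_filter] at hx
    rw [Finset.mem_filter]
    refine ⟨hx.1, ?_⟩
    have h1 := (Nat.div_eq_zero_iff_lt hk).mp hx.2
    show d x < φ
    omega
  have hns : n (q + 2) < t := by
    refine lt_of_le_of_lt (Finset.card_le_card ?_) hhigh
    intro x hx
    rw [P, Finset.mem_filter] at hx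
    rw [Finset.mem_filter]
    refine ⟨hx.1, ?_⟩
    have h1 : (q + 2) * k ≤ d x + c := by
      rw [← Nat.le_div_iff_mul_le hk, hx.2]
    have e : (q + 2) * k = (q + 1) * k + k := by ring
    show (q + 1) * k + φ ≤ d x
    omega
  -- total
  have hmaps : ∀ v ∈ (univ : Finset V), (d v + c) / k ∈ range (q + 3) := fun v _ =>
    Finset.mem_range.mpr (hlev v)
  have htot : ∑ i ∈ range (q + 3), n i = (q + 1) * k + t := by
    rw [← hn, ← Finset.card_univ, Finset.card_eq_sum_card_fiberwise hmaps]
    rfl
  -- the chain lemma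
  obtain ⟨j, hj, hchain⟩ := chain_lemma n (fun i => #(R d k c i)) (q + 2) (by omega)
    (fun i => Finset.card_le_card (R_sub d k c i)) rfl (by
      rw [Finset.card_eq_zero, Finset.eq_empty_iff_forall_notMem]
      intro v hv
      have h1 := R_deg d k c (q + 2) v hv
      have h2 := hdlt v
      have e : (q + 2) * k = (q + 1) * k + k := by ring
      omega)
  -- the upper close pairs
  have hup : ∑ i ∈ range (q + 2), #(R d k c i) * (n (i + 1) - #(R d k c (i + 1))) ≤
      ∑ v, #(up d k c v) := by
    rw [← Finset.sum_fiberwise_of_maps_to hmaps (fun v => #(up d k c v))]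
    rw [Finset.sum_range_succ (n := q + 2)]
    refine le_trans ?_ (Nat.le_add_right _ _)
    refine Finset.sum_le_sum fun i _ => ?_
    have h1 : ∑ v ∈ R d k c i, #(up d k c v) ≤
        ∑ v ∈ univ.filter (fun v => (d v + c) / k = i), #(up d k c v) :=
      Finset.sum_le_sum_of_subset (R_sub d k c i)
    refine le_trans ?_ h1
    rw [← smul_eq_mul, ← Finset.sum_const]
    refine Finset.sum_le_sum fun v hv => ?_
    show #(P d k c (i + 1)) - #(R d k c (i + 1)) ≤ _
    rw [← Finset.card_sdiff_of_subset (R_sub d k c (i + 1))]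
    apply Finset.card_le_card
    intro u hu
    rw [Finset.mem_sdiff] at hu
    have hv' := R_sub d k c i hv
    rw [P, Finset.mem_filter] at hv'
    have hu' := hu.1
    rw [P, Finset.mem_filter] at hu'
    rw [up, Finset.mem_filter]
    refine ⟨Finset.mem_univ _, by rw [hu'.2, hv'.2], ?_⟩
    by_contra hcon
    rw [not_lt] at hcon
    apply hu.2
    rw [R, Finset.mem_filter]
    exact ⟨hu.1, v, hv, hcon⟩
  -- inside the levels
  have hin : ∑ v, (#(P d k c ((d v + c) / k)) - 1) = ∑ i ∈ range (q + 3), n i * (n i - 1) := by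
    rw [← Finset.sum_fiberwise_of_maps_to hmaps (fun v => #(P d k c ((d v + c) / k)) - 1)]
    refine Finset.sum_congr rfl fun i _ => ?_
    have h1 : ∀ v ∈ univ.filter (fun v => (d v + c) / k = i),
        #(P d k c ((d v + c) / k)) - 1 = n i - 1 := by
      intro v hv
      rw [(Finset.mem_filter.mp hv).2]
    rw [Finset.sum_congr rfl h1, Finset.sum_const, smul_eq_mul]
    rfl
  -- assemble
  have hdeg : ∑ v, (closeGraph G k).degree v = 2 * closePairs G k :=
    (closeGraph G k).sum_degrees_eq_twice_card_edges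
  have hge : ∑ v, ((#(P d k c ((d v + c) / k)) - 1) + #(up d k c v) + #(down d k c v)) ≤
      2 * closePairs G k := by
    rw [← hdeg]
    exact Finset.sum_le_sum fun v _ => degree_ge G k c hk v
  rw [Finset.sum_add_distrib, Finset.sum_add_distrib, ← sum_up_eq_sum_down, hin] at hge
  have hnat : ∑ i ∈ range (q + 3), n i * (n i - 1) + 2 * (n j * n (j + 1)) ≤
      2 * closePairs G k := by
    have := le_trans hchain hup
    omega
  have hcast : (∑ i ∈ range (q + 3), (n i : ℤ) * ((n i : ℤ) - 1)) =
      ((∑ i ∈ range (q + 3), n i * (n i - 1) : ℕ) : ℤ) := by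
    push_cast
    refine Finset.sum_congr rfl fun i _ => ?_
    rcases Nat.eq_zero_or_pos (n i) with h | h
    · rw [h]; simp
    · rw [Nat.cast_sub h]; push_cast; ring
  have hconv := convex_bound (fun i => (n i : ℤ)) q k t (fun i => by positivity)
    (by exact_mod_cast ht) (by exact_mod_cast htk) (by
      have := htot
      have h2 : ((∑ i ∈ range (q + 3), n i : ℕ) : ℤ) = (((q + 1) * k + t : ℕ) : ℤ) := by
        rw [htot]
      push_cast at h2
      exact h2) (by
      show (n 0 : ℤ) ≤ t - 1
      omega) (by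
      show (n (q + 2) : ℤ) ≤ t - 1
      omega) j hj
  refine le_trans hconv ?_
  show (∑ i ∈ range (q + 3), (n i : ℤ) * ((n i : ℤ) - 1)) + 2 * ((n j : ℤ) * (n (j + 1) : ℤ)) ≤ _
  rw [hcast]
  exact_mod_cast hnat

theorem two_mul_choose_two (m : ℕ) : 2 * ((m.choose 2 : ℕ) : ℤ) = (m : ℤ) * (m - 1) := by
  induction m with
  | zero => simp
  | succ m ih =>
    rw [Nat.choose_succ_succ' m 1, Nat.choose_one_right]
    push_cast
    linarith

/-- `f_0(n,k) ≤ h_k(G)` for every graph with `n > k` vertices. -/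
theorem f0_le {V : Type*} [Fintype V] [DecidableEq V] (G : SimpleGraph V) [DecidableRel G.Adj]
    (k : ℕ) (hk : 1 ≤ k) (hn : k < Fintype.card V) :
    f0 (Fintype.card V) k ≤ closePairs G k := by
  set N := Fintype.card V with hN
  have hkq : (0 : ℚ) < (k : ℚ) := by exact_mod_cast hk
  obtain ⟨q, hq⟩ : ∃ q, ⌈(N : ℚ) / k⌉₊ = q + 2 := by
    have h1 : 1 < ⌈(N : ℚ) / k⌉₊ := by
      rw [Nat.lt_ceil, lt_div_iff₀ hkq]
      push_cast
      rw [one_mul]
      exact_mod_cast hn
    exact ⟨⌈(N : ℚ) / k⌉₊ - 2, by omega⟩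
  have hup : N ≤ (q + 2) * k := by
    have h1 := Nat.le_ceil ((N : ℚ) / k)
    rw [hq, div_le_iff₀ hkq] at h1
    exact_mod_cast h1
  have hlo : (q + 1) * k < N := by
    have h1 : q + 1 < ⌈(N : ℚ) / k⌉₊ := by omega
    rw [Nat.lt_ceil, lt_div_iff₀ hkq] at h1
    exact_mod_cast h1
  have ett : tt N k = N - k * (q + 1) := by
    unfold tt; rw [hq]; rfl
  obtain ⟨t, ht⟩ : ∃ t, N = (q + 1) * k + t := ⟨N - (q + 1) * k, by omega⟩
  have et : tt N k = t := by
    rw [ett, Nat.mul_comm k (q + 1)]; omega
  have ht1 : 1 ≤ t := by omega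
  have htk : t ≤ k := by
    have e : (q + 2) * k = (q + 1) * k + k := by ring
    omega
  have hmain := main G q k t hk ht1 htk (by rw [← hN]; exact ht)
  have hf : 2 * ((f0 N k : ℕ) : ℤ) =
      (q : ℤ) * (k * (k - 1)) + (k + 1) * k + (t - 1) * (t - 2) := by
    unfold f0
    rw [et, hq]
    have e1 := two_mul_choose_two k
    have e2 := two_mul_choose_two (k + 1)
    have e3 := two_mul_choose_two (t - 1)
    rw [Nat.cast_sub ht1] at e3
    push_cast at e1 e2 e3 ⊢
    linear_combination (q : ℤ) * e1 + e2 + e3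
  have : 2 * ((f0 N k : ℕ) : ℤ) ≤ 2 * (closePairs G k : ℤ) := by rw [hf]; exact hmain
  omega

end Q248.DC
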